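import Mathlib
import Pool.Agent.Helper48_LPY.Stmts
import Pool.Agent.Helper48_LPY.Basic

/-!
# HALL: Hall's condition
-/

set_option autoImplicit false

namespace Pool.Agent.LPY.H82

open Pool.Agent.LAX Pool.Agent.LPY

section counting

variable {α β : Type} [Fintype α] [Fintype β]

lemma cast_ncard (S : Set α) : (S.ncard : ℝ) = ∑ x, S.indicator (fun _ => (1 : ℝ)) x := by
  classical
  rw [Set.ncard_eq_toFinset_card']
  simp [Set.indicator_apply, Set.toFinset]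

lemma sum_out_ncard (P : Set (α × β)) : ∑ x, ((out P x).ncard : ℝ) = P.ncard := by
  classical
  rw [cast_ncard, Fintype.sum_prod_type]
  refine Finset.sum_congr rfl fun x _ => ?_
  rw [cast_ncard]
  rfl

lemma sum_inn_ncard (P : Set (α × β)) : ∑ y, ((inn P y).ncard : ℝ) = P.ncard := by
  classical
  rw [cast_ncard, Fintype.sum_prod_type_right]
  refine Finset.sum_congr rfl fun x _ => ?_
  rw [cast_ncard]
  rfl

lemma ncard_le_of_subset_union3 {S A B C : Set α} (h : S ⊆ A ∪ B ∪ C) :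
    (S.ncard : ℝ) ≤ A.ncard + B.ncard + C.ncard := by
  have h1 := Set.ncard_le_ncard h (Set.toFinite _)
  have h2 := Set.ncard_union_le (A ∪ B) C
  have h3 := Set.ncard_union_le A B
  have : S.ncard ≤ A.ncard + B.ncard + C.ncard := by omega
  exact_mod_cast this

lemma ncard_le_of_subset_union2 {S A B : Set α} (h : S ⊆ A ∪ B) :
    (S.ncard : ℝ) ≤ A.ncard + B.ncard := by
  have h1 := Set.ncard_le_ncard h (Set.toFinite _)
  have h3 := Set.ncard_union_le A B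
  have : S.ncard ≤ A.ncard + B.ncard := by omega
  exact_mod_cast this

lemma ncard_split (S A : Set α) : (S.ncard : ℝ) = (S ∩ A).ncard + (S \ A).ncard := by
  have := Set.ncard_inter_add_ncard_sdiff_eq_ncard S A (Set.toFinite _)
  exact_mod_cast this.symm

end counting

/-- The final arithmetic. -/
lemma final_arith (K w r lam β hbb s1 s2 : ℝ) (hK : 0 < K) (hw0 : 0 ≤ w) (hr : 0 < r)
    (hlam : 1 ≤ lam) (hβ : 0 < β) (hhb : 0 ≤ hbb) (hs2 : 0 < s2) (hw : 20 * w ≤ K)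
    (hHC : 600 * lam * (β + hbb) / (K * r) + 2 * w / K ≤ s1 / (5 * s2))
    (al t x1 sA sAA sLA B a1 a2 mm p ssc slo z nEh aEt l1 l2 lAA etAA ehSS lss aL sL lin lin2 : ℝ)
    (hal : 0 ≤ al) (ht0 : 0 ≤ t) (hB : 0 ≤ B) (hz0 : 0 ≤ z) (_hmm : 0 ≤ mm) (hp0 : 0 ≤ p)
    (hpm : p ≤ mm) (ha1 : 0 ≤ a1) (hx1 : 0 ≤ x1)
    (h0 : (K - w) * (mm + p) ≤ K * ssc + sAA) (h0' : ssc + a2 = mm + a1)
    (h1 : K * x1 ≤ 5 * sA)
    (h2 : 19 / 20 * r * sAA ≤ sLA + 2 * K * (β * t)) (h2' : 5 * sLA ≤ 5 * sA + K * B)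
    (h3 : r / 2 * sA ≤ K * r / 64 * slo + (2 * β + hbb) * al)
    (ha : l1 ≤ z + x1 + hbb * t)
    (hb1 : sL = aL + z) (hb2 : sL = lin + slo) (hb3 : lss ≤ lin + hbb * t)
    (hb4 : lss = l1 + lin2) (hb5 : lAA = lin2 + l2) (hb6 : aL + B ≤ lAA + x1)
    (hn1 : 19 / 20 * r * a1 ≤ l1 + β * t) (hn2 : l2 ≤ 6 / 5 * r * a2 + β * t)
    (hn4 : etAA ≤ ehSS + r / 12 * a2 + r / 100 * (p + a1) + β * t)
    (hn5 : 19 / 20 * r * mm ≤ lAA + β * t) (hn5' : lAA ≤ al + B)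
    (hc1 : ehSS ≤ nEh + hbb * t) (hc2 : aEt ≤ etAA + x1)
    (hz : s1 * al ≤ s2 * z) (ht : t ≤ 128 * lam / (K * r) * al) :
    aEt ≤ z + nEh := by
  -- normalised variables
  obtain ⟨lA, hlA⟩ : ∃ lA, lA = sA / K := ⟨_, rfl⟩
  obtain ⟨ll, hll⟩ : ∃ ll, ll = r * sAA / K := ⟨_, rfl⟩
  obtain ⟨om, hom⟩ : ∃ om, om = w / K := ⟨_, rfl⟩
  obtain ⟨X, hX⟩ : ∃ X, X = (β + hbb) / (K * r) * al := ⟨_, rfl⟩
  have hKr : 0 < K * r := mul_pos hK hr
  have hom0 : 0 ≤ om := by rw [hom]; positivity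
  have hom1 : om ≤ 1 / 20 := by
    rw [hom, div_le_iff₀ hK]; linarith
  have hX0 : 0 ≤ X := by rw [hX]; positivity
  have e1 : x1 ≤ 5 * lA := by
    rw [hlA]
    have w : K * (5 * (sA / K)) = 5 * sA := by field_simp
    have w' : K * x1 ≤ K * (5 * (sA / K)) := by rw [w]; exact h1
    exact le_of_mul_le_mul_left w' hK
  have e2 : 19 / 20 * ll ≤ lA + B / 5 + 2 * (β * t) := by
    have q1 : K * (19 / 20 * ll) ≤ K * (lA + B / 5 + 2 * (β * t)) := by
      have w1 : K * (19 / 20 * ll) = 19 / 20 * r * sAA := by rw [hll]; field_simp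
      have w2 : K * (lA + B / 5 + 2 * (β * t)) = sA + K * B / 5 + 2 * K * (β * t) := by
        rw [hlA]; field_simp
      rw [w1, w2]
      linarith
    exact le_of_mul_le_mul_left q1 hK
  have e3 : 32 * lA - 64 / (K * r) * ((2 * β + hbb) * al) ≤ slo := by
    have w2 : K * lA = sA := by rw [hlA]; field_simp
    have w3 : (K * r) * (64 / (K * r) * ((2 * β + hbb) * al)) = 64 * ((2 * β + hbb) * al) := by
      field_simp
    have q1 : (K * r) * (32 * lA - 64 / (K * r) * ((2 * β + hbb) * al)) ≤ (K * r) * slo := by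
      rw [mul_sub, w3]
      have : K * r * (32 * lA) = 64 * (r / 2 * sA) := by rw [← w2]; ring
      rw [this]
      linarith
    exact le_of_mul_le_mul_left q1 hKr
  -- (0)
  have e0 : r * a2 ≤ r * a1 - r * p + ll + om * (r * mm + r * p) := by
    have q0 : (K - w) * (mm + p) ≤ K * (mm + a1 - a2) + sAA := by
      have : ssc = mm + a1 - a2 := by linarith
      rw [← this]; exact h0
    have w1 : K * ll = r * sAA := by rw [hll]; field_simp
    have w3 : K * om = w := by rw [hom]; field_simp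
    have q1 : r * ((K - w) * (mm + p)) ≤ r * (K * (mm + a1 - a2) + sAA) :=
      mul_le_mul_of_nonneg_left q0 hr.le
    have q2 : K * (r * a2) ≤ K * (r * a1 - r * p + ll + om * (r * mm + r * p)) := by
      have : K * (r * a1 - r * p + ll + om * (r * mm + r * p)) =
          K * (r * a1) - K * (r * p) + K * ll + (K * om) * (r * mm + r * p) := by ring
      rw [this, w1, w3]
      linarith
    exact le_of_mul_le_mul_left q2 hK
  obtain ⟨A1, hA1⟩ : ∃ A1, A1 = r * a1 := ⟨_, rfl⟩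
  obtain ⟨A2, hA2⟩ : ∃ A2, A2 = r * a2 := ⟨_, rfl⟩
  obtain ⟨pi, hpi⟩ : ∃ pi, pi = r * p := ⟨_, rfl⟩
  obtain ⟨m, hm⟩ : ∃ m, m = r * mm := ⟨_, rfl⟩
  obtain ⟨n, hn⟩ : ∃ n, n = β * t := ⟨_, rfl⟩
  obtain ⟨hb, hhbt⟩ : ∃ hb, hb = hbb * t := ⟨_, rfl⟩
  obtain ⟨e, he⟩ : ∃ e, e = 64 / (K * r) * ((2 * β + hbb) * al) := ⟨_, rfl⟩
  have hA10 : 0 ≤ A1 := by rw [hA1]; positivity
  have hn0 : 0 ≤ n := by rw [hn]; positivity
  have hpi0 : 0 ≤ pi := by rw [hpi]; positivity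
  have hpim : pi ≤ m := by rw [hpi, hm]; exact mul_le_mul_of_nonneg_left hpm hr.le
  have hm5 : 19 / 20 * m ≤ al + B + n := by rw [hm, hn]; linarith
  -- the product om * (m + pi)
  have f1 : om * (m + pi) ≤ om * (40 / 19 * (al + B + n)) := by
    apply mul_le_mul_of_nonneg_left _ hom0
    linarith
  have f2 : om * (B + n) ≤ 1 / 20 * (B + n) := by
    apply mul_le_mul_of_nonneg_right hom1; positivity
  have f3 : om * (40 / 19 * (al + B + n)) = 40 / 19 * (om * al) + 40 / 19 * (om * (B + n)) := by ring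
  have g0 : A2 ≤ A1 - pi + ll + om * (m + pi) := by rw [hA2, hA1, hpi, hm]; exact e0
  have g0' : A2 ≤ A1 - pi + ll + 40 / 19 * (om * al) + 40 / 19 * (1 / 20 * (B + n)) := by
    linarith
  have g1 : 19 / 20 * A1 ≤ l1 + n := by rw [hA1, hn]; linarith
  have g2 : l2 ≤ 6 / 5 * A2 + n := by rw [hA2, hn]; linarith
  have g4 : etAA ≤ ehSS + A2 / 12 + (pi + A1) / 100 + n := by
    rw [hA2, hA1, hpi, hn]
    linarith
  have g3 : 32 * lA - e ≤ slo := by rw [he]; exact e3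
  have g5 : 19 / 20 * ll ≤ lA + B / 5 + 2 * n := by rw [hn]; exact e2
  have g6 : l1 ≤ z + x1 + hb := by rw [hhbt]; exact ha
  have g7 : lss ≤ lin + hb := by rw [hhbt]; exact hb3
  have g8 : ehSS ≤ nEh + hb := by rw [hhbt]; exact hc1
  -- lower bound for 0.2 z
  have hhb0 : 0 ≤ hb := by rw [hhbt]; positivity
  have hlA0 : 0 ≤ lA := by linarith
  have k1 : 2 / 5 * e ≤ 256 / 5 * X := by
    rw [he, hX]
    have : 64 / (K * r) * ((2 * β + hbb) * al) ≤ 128 * ((β + hbb) / (K * r) * al) := by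
      have w1 : 64 / (K * r) * ((2 * β + hbb) * al) = (64 * (2 * β + hbb) * al) / (K * r) := by ring
      have w2 : 128 * ((β + hbb) / (K * r) * al) = (128 * (β + hbb) * al) / (K * r) := by ring
      rw [w1, w2]
      apply div_le_div_of_nonneg_right _ hKr.le
      have := mul_nonneg hhb hal
      linarith
    linarith
  have k2 : 9 / 5 * hb + 69 / 20 * n ≤ 2208 / 5 * (lam * X) := by
    have w1 : hb + n ≤ 128 * (lam * X) := by
      have : hb + n = (β + hbb) * t := by rw [hhbt, hn]; ring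
      rw [this]
      calc (β + hbb) * t ≤ (β + hbb) * (128 * lam / (K * r) * al) :=
            mul_le_mul_of_nonneg_left ht (by positivity)
        _ = 128 * (lam * X) := by rw [hX]; ring
    linarith
  have k3 : 600 * (lam * X) + 2 * (om * al) ≤ z / 5 := by
    have w1 : s1 / (5 * s2) * al ≤ z / 5 := by
      rw [div_mul_eq_mul_div, div_le_div_iff₀ (by positivity) (by norm_num)]
      linarith
    have w2 : (600 * lam * (β + hbb) / (K * r) + 2 * w / K) * al ≤ s1 / (5 * s2) * al :=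
      mul_le_mul_of_nonneg_right hHC hal
    have w3 : (600 * lam * (β + hbb) / (K * r) + 2 * w / K) * al =
        600 * (lam * X) + 2 * (om * al) := by
      rw [hX, hom]; ring
    rw [← w3]
    exact w2.trans w1
  have k4 : X ≤ lam * X := le_mul_of_one_le_left hX0 hlam
  have k5 : 0 ≤ om * al := mul_nonneg hom0 hal
  -- combination
  have c2 : slo + l1 - l2 + B - x1 - hb ≤ z := by linarith
  have c3 : aEt ≤ nEh + hb + x1 + n + A2 / 12 + (pi + A1) / 100 := by linarith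
  linarith

section sets

variable {V : Type} [Fintype V]

lemma slk_eq (Q : Set (V × V)) (δ : Lab) (T A : Set (V × Lab)) :
    slk Q δ T A = ∑ p, A.indicator (fun p => (leak Q δ T p : ℝ)) p := rfl

/-- (1) -/
lemma aux1 (Q : Set (V × V)) (δ : Lab) (k0 : ℕ) (T A : Set (V × Lab)) :
    (k0 : ℝ) * (A \ AA Q δ k0 T).ncard ≤ 5 * slk Q δ T A := by
  classical
  rw [cast_ncard, slk_eq, Finset.mul_sum, Finset.mul_sum]
  refine Finset.sum_le_sum fun p _ => ?_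
  by_cases hp : p ∈ A
  · by_cases hq : p ∈ AA Q δ k0 T
    · have : p ∉ A \ AA Q δ k0 T := fun h => h.2 hq
      rw [Set.indicator_of_notMem this, Set.indicator_of_mem hp]
      simp
    · have h1 : p ∈ A \ AA Q δ k0 T := ⟨hp, hq⟩
      rw [Set.indicator_of_mem h1, Set.indicator_of_mem hp]
      have h2 : k0 < 5 * leak Q δ T p := not_le.1 hq
      have h3 : (k0 : ℝ) < 5 * leak Q δ T p := by exact_mod_cast h2
      linarith
  · have : p ∉ A \ AA Q δ k0 T := fun h => hp h.1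
    rw [Set.indicator_of_notMem this, Set.indicator_of_notMem hp]
    simp

/-- (2) -/
lemma aux2 (Q : Set (V × V)) (δ : Lab) (k0 : ℕ) (T A L : Set (V × Lab)) :
    5 * slk Q δ T (L ∩ AA Q δ k0 T) ≤
      5 * slk Q δ T A + k0 * ((L ∩ AA Q δ k0 T) \ A).ncard := by
  classical
  rw [cast_ncard, slk_eq, slk_eq, Finset.mul_sum, Finset.mul_sum, Finset.mul_sum,
    ← Finset.sum_add_distrib]
  refine Finset.sum_le_sum fun p _ => ?_
  have h0 : (0 : ℝ) ≤ leak Q δ T p := Nat.cast_nonneg _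
  by_cases hq : p ∈ L ∩ AA Q δ k0 T
  · by_cases hp : p ∈ A
    · have : p ∉ (L ∩ AA Q δ k0 T) \ A := fun h => h.2 hp
      rw [Set.indicator_of_notMem this, Set.indicator_of_mem hp, Set.indicator_of_mem hq]
      simp
    · have h1 : p ∈ (L ∩ AA Q δ k0 T) \ A := ⟨hq, hp⟩
      rw [Set.indicator_of_mem h1, Set.indicator_of_notMem hp, Set.indicator_of_mem hq]
      have h2 : 5 * leak Q δ T p ≤ k0 := hq.2
      have h3 : 5 * (leak Q δ T p : ℝ) ≤ k0 := by exact_mod_cast h2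
      linarith
  · have : p ∉ (L ∩ AA Q δ k0 T) \ A := fun h => hq h.1
    rw [Set.indicator_of_notMem this, Set.indicator_of_notMem hq]
    by_cases hp : p ∈ A
    · rw [Set.indicator_of_mem hp]; simp
    · rw [Set.indicator_of_notMem hp]; simp

/-- (3) -/
lemma aux3 (Q : Set (V × V)) (δ : Lab) (k0 Hb : ℕ) (r β : ℝ) (L Et Eh T A : Set (V × Lab))
    (H : Set ((V × Lab) × (V × Lab))) (hA : A ⊆ L ∪ Et)
    (hH : ∀ z ∈ H, z.2 ∈ ow Q δ z.1 ∧ z.1 ∈ L ∪ Et ∧ z.2 ∈ L ∪ Eh)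
    (hHb : ∀ p ∈ L ∪ Et, ((ow Q δ p ∩ (L ∪ Eh)) \ out H p).ncard ≤ Hb)
    (h2 : ∀ x ∈ A, r / 2 * leak Q δ T x ≤ (L ∩ (ow Q δ x \ SS Q δ T)).ncard + 2 * β)
    (h3 : ∀ y, y ∉ SS Q δ T → ({x | x ∈ A ∧ y ∈ ow Q δ x}.ncard : ℝ) ≤ k0 * r / 64) :
    r / 2 * slk Q δ T A ≤
      k0 * r / 64 * ((({y | ∃ x ∈ A, (x, y) ∈ H} ∪ (A ∩ L)) ∩ L) \ SS Q δ T).ncard +
      (2 * β + Hb) * A.ncard := by
  classical
  let P : Set ((V × Lab) × (V × Lab)) := {z | z ∈ H ∧ z.1 ∈ A ∧ z.2 ∈ L \ SS Q δ T}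
  have e1 : r / 2 * slk Q δ T A ≤ (P.ncard : ℝ) + (2 * β + Hb) * A.ncard := by
    rw [slk_eq, Finset.mul_sum, ← sum_out_ncard P, cast_ncard A, Finset.mul_sum,
      ← Finset.sum_add_distrib]
    refine Finset.sum_le_sum fun p _ => ?_
    by_cases hp : p ∈ A
    · rw [Set.indicator_of_mem hp, Set.indicator_of_mem hp]
      have q1 : (L ∩ (ow Q δ p \ SS Q δ T)) ⊆
          out P p ∪ ((ow Q δ p ∩ (L ∪ Eh)) \ out H p) := by
        rintro y ⟨hyL, hyo, hyS⟩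
        by_cases hy : (p, y) ∈ H
        · exact Or.inl ⟨hy, hp, hyL, hyS⟩
        · exact Or.inr ⟨⟨hyo, Or.inl hyL⟩, hy⟩
      have q2 := ncard_le_of_subset_union2 q1
      have q3 : (((ow Q δ p ∩ (L ∪ Eh)) \ out H p).ncard : ℝ) ≤ Hb := by
        exact_mod_cast hHb p (hA hp)
      have q4 := h2 p hp
      linarith
    · rw [Set.indicator_of_notMem hp, Set.indicator_of_notMem hp]
      simp
  have e2 : (P.ncard : ℝ) ≤
      k0 * r / 64 * ((({y | ∃ x ∈ A, (x, y) ∈ H} ∪ (A ∩ L)) ∩ L) \ SS Q δ T).ncard := by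
    rw [← sum_inn_ncard P, cast_ncard, Finset.mul_sum]
    refine Finset.sum_le_sum fun y _ => ?_
    by_cases hy : y ∈ (({y | ∃ x ∈ A, (x, y) ∈ H} ∪ (A ∩ L)) ∩ L) \ SS Q δ T
    · rw [Set.indicator_of_mem hy, mul_one]
      have q1 : inn P y ⊆ {x | x ∈ A ∧ y ∈ ow Q δ x} := by
        rintro x ⟨hx, hxA, _⟩
        exact ⟨hxA, (hH _ hx).1⟩
      have q2 := Set.ncard_le_ncard q1 (Set.toFinite _)
      have q3 : ((inn P y).ncard : ℝ) ≤ ({x | x ∈ A ∧ y ∈ ow Q δ x}.ncard : ℝ) := by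
        exact_mod_cast q2
      exact q3.trans (h3 y hy.2)
    · rw [Set.indicator_of_notMem hy, mul_zero]
      have q1 : inn P y = ∅ := by
        rw [Set.eq_empty_iff_forall_notMem]
        rintro x ⟨hx, hxA, hyL, hyS⟩
        exact hy ⟨⟨Or.inl ⟨x, hxA, hx⟩, hyL⟩, hyS⟩
      rw [q1]
      simp
  linarith

/-- (4) -/
lemma aux4 (Q : Set (V × V)) (δ : Lab) (Hb : ℕ) (L Et Eh T A : Set (V × Lab))
    (H : Set ((V × Lab) × (V × Lab))) (hA : A ⊆ L ∪ Et) (hT : T ⊆ A)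
    (hHb : ∀ p ∈ L ∪ Et, ((ow Q δ p ∩ (L ∪ Eh)) \ out H p).ncard ≤ Hb) :
    ((((L ∪ Eh) ∩ SS Q δ T) \ {y | ∃ x ∈ A, (x, y) ∈ H}).ncard : ℝ) ≤ Hb * T.ncard := by
  classical
  let P : Set ((V × Lab) × (V × Lab)) :=
    {z | z.1 ∈ T ∧ z.2 ∈ (ow Q δ z.1 ∩ (L ∪ Eh)) \ out H z.1}
  have e1 : (P.ncard : ℝ) ≤ Hb * T.ncard := by
    rw [← sum_out_ncard P, cast_ncard T, Finset.mul_sum]
    refine Finset.sum_le_sum fun p _ => ?_
    by_cases hp : p ∈ T
    · rw [Set.indicator_of_mem hp, mul_one]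
      have q1 : out P p ⊆ (ow Q δ p ∩ (L ∪ Eh)) \ out H p := fun y hy => hy.2
      have q2 := (Set.ncard_le_ncard q1 (Set.toFinite _)).trans (hHb p (hA (hT hp)))
      exact_mod_cast q2
    · rw [Set.indicator_of_notMem hp, mul_zero]
      have q1 : out P p = ∅ := by
        rw [Set.eq_empty_iff_forall_notMem]
        rintro y ⟨hy, _⟩
        exact hp hy
      rw [q1]
      simp
  have e2 : ((L ∪ Eh) ∩ SS Q δ T) \ {y | ∃ x ∈ A, (x, y) ∈ H} ⊆ Prod.snd '' P := by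
    rintro y ⟨⟨hy, t, ht, hyt⟩, hn⟩
    refine ⟨(t, y), ⟨ht, ⟨hyt, hy⟩, fun h => hn ⟨t, hT ht, h⟩⟩, rfl⟩
  have e3 := (Set.ncard_le_ncard e2 (Set.toFinite _)).trans (Set.ncard_image_le (Set.toFinite P))
  have e4 : ((((L ∪ Eh) ∩ SS Q δ T) \ {y | ∃ x ∈ A, (x, y) ∈ H}).ncard : ℝ) ≤ P.ncard := by
    exact_mod_cast e3
  exact e4.trans e1

/-- the sinks -/
lemma aux5 (s1 s2 : ℝ) (L Et Z A : Set (V × Lab))
    (H : Set ((V × Lab) × (V × Lab))) (hA : A ⊆ L ∪ Et)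
    (hs1 : ∀ p ∈ L ∪ Et, s1 ≤ ((out H p ∩ Z).ncard : ℝ))
    (hs2 : ∀ p ∈ Z, ((inn H p).ncard : ℝ) ≤ s2) :
    s1 * A.ncard ≤ s2 * ({y | ∃ x ∈ A, (x, y) ∈ H} ∩ Z).ncard := by
  classical
  let P : Set ((V × Lab) × (V × Lab)) := {z | z ∈ H ∧ z.1 ∈ A ∧ z.2 ∈ Z}
  have e1 : s1 * A.ncard ≤ (P.ncard : ℝ) := by
    rw [← sum_out_ncard P, cast_ncard A, Finset.mul_sum]
    refine Finset.sum_le_sum fun p _ => ?_
    by_cases hp : p ∈ A
    · rw [Set.indicator_of_mem hp, mul_one]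
      have q1 : out H p ∩ Z = out P p := by
        ext y
        constructor
        · rintro ⟨h1, h2⟩
          exact ⟨h1, hp, h2⟩
        · rintro ⟨h1, _, h2⟩
          exact ⟨h1, h2⟩
      rw [← q1]
      exact hs1 p (hA hp)
    · rw [Set.indicator_of_notMem hp, mul_zero]
      positivity
  have e2 : (P.ncard : ℝ) ≤ s2 * ({y | ∃ x ∈ A, (x, y) ∈ H} ∩ Z).ncard := by
    rw [← sum_inn_ncard P, cast_ncard, Finset.mul_sum]
    refine Finset.sum_le_sum fun y _ => ?_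
    by_cases hy : y ∈ {y | ∃ x ∈ A, (x, y) ∈ H} ∩ Z
    · rw [Set.indicator_of_mem hy, mul_one]
      have q1 : inn P y ⊆ inn H y := fun x hx => hx.1
      have q2 := Set.ncard_le_ncard q1 (Set.toFinite _)
      have q3 : ((inn P y).ncard : ℝ) ≤ ((inn H y).ncard : ℝ) := by exact_mod_cast q2
      exact q3.trans (hs2 y hy.2)
    · rw [Set.indicator_of_notMem hy, mul_zero]
      have q1 : inn P y = ∅ := by
        rw [Set.eq_empty_iff_forall_notMem]
        rintro x ⟨hx, hxA, hyZ⟩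
        exact hy ⟨⟨x, hxA, hx⟩, hyZ⟩
      rw [q1]
      simp
  exact e1.trans e2

end sets

lemma part_le {V : Type} [Fintype V] (A : Set (V × Lab)) : part A ≤ A.ncard := by
  classical
  have h : {x : V | (∃ i, (x, i) ∈ A) ∧ ∃ i, (x, i) ∉ A} ⊆ Prod.fst '' A := by
    rintro x ⟨⟨i, hi⟩, _⟩
    exact ⟨(x, i), hi, rfl⟩
  exact (Set.ncard_le_ncard h (Set.toFinite _)).trans (Set.ncard_image_le (Set.toFinite _))

theorem hall (hFpt : FptStmt) (hKin : KinStmt) : HallStmt := by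
  intro V _ Q δ k0 w Hb lam r β s1 s2 L Et Eh Z H hδ hk0 hw hlam hr hβ hs1 hs2 hdeg hLEt hLEh hZL
    hNC hH hHb hsink1 hsink2 hHC A hA
  classical
  have hAL : A ⊆ L ∪ Et := fun x hx => (hA hx).1
  obtain ⟨T, hTA, ht, hii, hiii⟩ := hFpt V Q δ k0 lam r β L Et Eh hk0 hlam hr hβ
    (fun x => (hdeg x).2.1) hNC A
  have hnc := hNC ∅ T (Set.empty_subset _)
  set AT := AA Q δ k0 T with hAT
  set ST := SS Q δ T with hST
  set N : Set (V × Lab) := {y | ∃ x ∈ A, (x, y) ∈ H} with hN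
  set S : Set (V × Lab) := N ∪ (A ∩ L) with hS
  have hK : (0 : ℝ) < k0 := by exact_mod_cast hk0
  have hlam1 : 1 ≤ lam := by
    have : 0 ≤ Real.log (2 * k0) := Real.log_nonneg (by
      have : (1 : ℝ) ≤ k0 := by exact_mod_cast hk0
      linarith)
    linarith
  have hNLE : N ⊆ L ∪ Eh := by
    rintro y ⟨x, _, hxy⟩
    exact (hH _ hxy).2.2
  -- sizes
  have hSsplit : (S.ncard : ℝ) = (S ∩ L).ncard + (N ∩ Eh).ncard := by
    rw [ncard_split S L]
    congr 2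
    have : S \ L = N ∩ Eh := by
      ext y
      constructor
      · rintro ⟨hy | hy, hyL⟩
        · rcases hNLE hy with h | h
          · exact absurd h hyL
          · exact ⟨hy, h⟩
        · exact absurd hy.2 hyL
      · rintro ⟨h1, h2⟩
        exact ⟨Or.inl h1, fun h => Set.disjoint_left.1 hLEh h h2⟩
    rw [this]
  have hAsplit : (A.ncard : ℝ) = (A ∩ L).ncard + (A ∩ Et).ncard := by
    rw [ncard_split A L]
    congr 2
    have : A \ L = A ∩ Et := by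
      ext y
      constructor
      · rintro ⟨hy, hyL⟩
        rcases hAL hy with h | h
        · exact absurd h hyL
        · exact ⟨hy, h⟩
      · rintro ⟨h1, h2⟩
        exact ⟨h1, fun h => Set.disjoint_left.1 hLEt h h2⟩
    rw [this]
  have hSL : ((S ∩ L).ncard : ℝ) = (A ∩ L).ncard + ((S ∩ L) \ A).ncard := by
    rw [ncard_split (S ∩ L) A]
    congr 2
    have : S ∩ L ∩ A = A ∩ L := by
      ext y
      constructor
      · rintro ⟨⟨_, h⟩, h2⟩
        exact ⟨h2, h⟩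
      · rintro ⟨h1, h2⟩
        exact ⟨⟨Or.inr ⟨h1, h2⟩, h2⟩, h1⟩
    rw [this]
  have key : ((A ∩ Et).ncard : ℝ) ≤ ((S ∩ L) \ A).ncard + (N ∩ Eh).ncard := by
    refine final_arith (k0 : ℝ) (w : ℝ) r lam β (Hb : ℝ) s1 s2 hK (Nat.cast_nonneg _) hr hlam1 hβ
      (Nat.cast_nonneg _) hs2 (by exact_mod_cast hw) hHC
      (A.ncard : ℝ) (T.ncard : ℝ) ((A \ AT).ncard : ℝ) (slk Q δ T A) (slk Q δ T AT)
      (slk Q δ T (L ∩ AT)) (((L ∩ AT) \ A).ncard : ℝ) ((ST \ AT).ncard : ℝ)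
      ((AT \ ST).ncard : ℝ) (AT.ncard : ℝ) (part AT : ℝ) (ST.ncard : ℝ)
      (((S ∩ L) \ ST).ncard : ℝ) (((S ∩ L) \ A).ncard : ℝ) ((N ∩ Eh).ncard : ℝ)
      ((A ∩ Et).ncard : ℝ) ((L ∩ (ST \ AT)).ncard : ℝ) ((L ∩ (AT \ ST)).ncard : ℝ)
      ((L ∩ AT).ncard : ℝ) ((Et ∩ AT).ncard : ℝ) ((Eh ∩ ST).ncard : ℝ)
      ((L ∩ ST).ncard : ℝ) ((A ∩ L).ncard : ℝ) ((S ∩ L).ncard : ℝ) (((S ∩ L) ∩ ST).ncard : ℝ)
      ((L ∩ (AT ∩ ST)).ncard : ℝ)
      (Nat.cast_nonneg _) (Nat.cast_nonneg _) (Nat.cast_nonneg _) (Nat.cast_nonneg _)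
      (Nat.cast_nonneg _) (Nat.cast_nonneg _) (by exact_mod_cast part_le AT) (Nat.cast_nonneg _)
      (Nat.cast_nonneg _)
      (hKin V Q δ k0 w hδ (fun x => (hdeg x).1) (fun x => (hdeg x).2.2) (by omega) T AT)
      ?_ (aux1 Q δ k0 T A) hnc.n3 (aux2 Q δ k0 T A L)
      (aux3 Q δ k0 Hb r β L Et Eh T A H hAL hH hHb hii hiii) ?_ hSL (ncard_split _ _) ?_ ?_ ?_ ?_
      hnc.n1 hnc.n2 hnc.n4 hnc.n5 ?_ ?_ ?_ ?_ ht
    · -- |SS| + |AA \ SS| = |AA| + |SS \ AA|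
      rw [ncard_split ST AT, ncard_split AT ST, Set.inter_comm]
      ring
    · -- (a)
      have h4 := aux4 Q δ Hb L Et Eh T A H hAL hTA hHb
      have h5 : L ∩ (ST \ AT) ⊆ ((S ∩ L) \ A) ∪ (A \ AT) ∪ (((L ∪ Eh) ∩ ST) \ N) := by
        rintro y ⟨hyL, hyS, hyA⟩
        by_cases h1 : y ∈ A
        · exact Or.inl (Or.inr ⟨h1, hyA⟩)
        · by_cases h2 : y ∈ N
          · exact Or.inl (Or.inl ⟨⟨Or.inl h2, hyL⟩, h1⟩)
          · exact Or.inr ⟨⟨Or.inl hyL, hyS⟩, h2⟩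
      have h6 := ncard_le_of_subset_union3 h5
      linarith
    · -- lss ≤ lin + hb
      have h4 := aux4 Q δ Hb L Et Eh T A H hAL hTA hHb
      have h5 : L ∩ ST ⊆ ((S ∩ L) ∩ ST) ∪ (((L ∪ Eh) ∩ ST) \ N) := by
        rintro y ⟨hyL, hyS⟩
        by_cases h2 : y ∈ N
        · exact Or.inl ⟨⟨Or.inl h2, hyL⟩, hyS⟩
        · exact Or.inr ⟨⟨Or.inl hyL, hyS⟩, h2⟩
      have h6 := ncard_le_of_subset_union2 h5
      linarith
    · -- lss = l1 + lin2
      rw [ncard_split (L ∩ ST) AT]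
      have h1 : L ∩ ST ∩ AT = L ∩ (AT ∩ ST) := by
        ext y; simp only [Set.mem_inter_iff]; tauto
      have h2 : (L ∩ ST) \ AT = L ∩ (ST \ AT) := by
        ext y; simp only [Set.mem_inter_iff, Set.mem_sdiff]; tauto
      rw [h1, h2]
      ring
    · -- lAA = lin2 + l2
      rw [ncard_split (L ∩ AT) ST]
      have h1 : L ∩ AT ∩ ST = L ∩ (AT ∩ ST) := by
        ext y; simp only [Set.mem_inter_iff]; tauto
      have h2 : (L ∩ AT) \ ST = L ∩ (AT \ ST) := by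
        ext y; simp only [Set.mem_inter_iff, Set.mem_sdiff]; tauto
      rw [h1, h2]
    · -- aL + B ≤ lAA + x1
      have h1 := ncard_split (L ∩ AT) A
      have h2 : A ∩ L ⊆ (L ∩ AT ∩ A) ∪ (A \ AT) := by
        rintro y ⟨h1, h2⟩
        by_cases h3 : y ∈ AT
        · exact Or.inl ⟨⟨h2, h3⟩, h1⟩
        · exact Or.inr ⟨h1, h3⟩
      have h3 := ncard_le_of_subset_union2 h2
      linarith
    · -- lAA ≤ al + B
      have h1 := ncard_split (L ∩ AT) A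
      have h2 : (L ∩ AT ∩ A).ncard ≤ A.ncard :=
        Set.ncard_le_ncard Set.inter_subset_right (Set.toFinite _)
      have h3 : ((L ∩ AT ∩ A).ncard : ℝ) ≤ A.ncard := by exact_mod_cast h2
      linarith
    · -- ehSS ≤ nEh + hb
      have h4 := aux4 Q δ Hb L Et Eh T A H hAL hTA hHb
      have h5 : Eh ∩ ST ⊆ (N ∩ Eh) ∪ (((L ∪ Eh) ∩ ST) \ N) := by
        rintro y ⟨hyL, hyS⟩
        by_cases h2 : y ∈ N
        · exact Or.inl ⟨h2, hyL⟩
        · exact Or.inr ⟨⟨Or.inr hyL, hyS⟩, h2⟩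
      have h6 := ncard_le_of_subset_union2 h5
      linarith
    · -- aEt ≤ etAA + x1
      have h5 : A ∩ Et ⊆ (Et ∩ AT) ∪ (A \ AT) := by
        rintro y ⟨h1, h2⟩
        by_cases h3 : y ∈ AT
        · exact Or.inl ⟨h2, h3⟩
        · exact Or.inr ⟨h1, h3⟩
      exact ncard_le_of_subset_union2 h5
    · -- sinks
      have h5 := aux5 s1 s2 L Et Z A H hAL hsink1 hsink2
      have h6 : N ∩ Z ⊆ (S ∩ L) \ A := by
        rintro y ⟨h1, h2⟩
        exact ⟨⟨Or.inl h1, hZL h2⟩, fun h => (hA h).2 h2⟩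
      have h7 : ((N ∩ Z).ncard : ℝ) ≤ ((S ∩ L) \ A).ncard := by
        exact_mod_cast Set.ncard_le_ncard h6 (Set.toFinite _)
      exact h5.trans (mul_le_mul_of_nonneg_left h7 hs2.le)
  have : (A.ncard : ℝ) ≤ S.ncard := by
    rw [hSsplit, hAsplit, hSL]
    linarith
  exact_mod_cast this

end Pool.Agent.LPY.H82
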