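import Mathlib
import Pool.Agent.Helper48_LPY.Stmts
import Pool.Agent.Helper48_LPY.Basic

/-!
# SMP: good samples for a block of classes
-/

set_option autoImplicit false
set_option linter.unusedSectionVars false

namespace Pool.Agent.LPY.H82

open Pool.Agent.LAX Pool.Agent.LPY

section count

lemma ncard_ex_le_real {X Y : Type} [Finite X] [Finite Y] (S : Set X) (f : X → Set Y) (m : ℝ)
    (h : ∀ x ∈ S, ((f x).ncard : ℝ) ≤ m) : ({y | ∃ x ∈ S, y ∈ f x}.ncard : ℝ) ≤ S.ncard * m := by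
  classical
  have := Fintype.ofFinite X
  have := Fintype.ofFinite Y
  have h1 : {y | ∃ x ∈ S, y ∈ f x} =
      ((S.toFinset.biUnion fun x => (f x).toFinset : Finset Y) : Set Y) := by
    ext y; simp
  rw [h1, Set.ncard_coe_finset]
  have h2 : ((S.toFinset.biUnion fun x => (f x).toFinset).card : ℝ) ≤
      ∑ x ∈ S.toFinset, ((f x).toFinset.card : ℝ) := by
    exact_mod_cast Finset.card_biUnion_le
  refine h2.trans ?_
  have h3 : ∑ x ∈ S.toFinset, ((f x).toFinset.card : ℝ) ≤ S.toFinset.card • m := by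
    refine Finset.sum_le_card_nsmul _ _ _ ?_
    intro x hx
    rw [← Set.ncard_eq_toFinset_card']
    exact h x (by simpa using hx)
  rw [nsmul_eq_mul, ← Set.ncard_eq_toFinset_card'] at h3
  exact h3

lemma ncard_ex_le {X Y : Type} [Finite X] [Finite Y] (S : Set X) (f : X → Set Y) (m : ℕ)
    (h : ∀ x ∈ S, (f x).ncard ≤ m) : {y | ∃ x ∈ S, y ∈ f x}.ncard ≤ S.ncard * m := by
  have := ncard_ex_le_real S f m (fun x hx => by exact_mod_cast h x hx)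
  exact_mod_cast this

lemma ncard_le_mul_of_subset {X Y : Type} [Finite X] [Finite Y] {W : Set Y} (S : Set X)
    (f : X → Set Y) (n m : ℕ) (hn : S.ncard ≤ n) (h : ∀ x ∈ S, (f x).ncard ≤ m)
    (hW : ∀ y ∈ W, ∃ x ∈ S, y ∈ f x) : W.ncard ≤ n * m :=
  (Set.ncard_le_ncard (t := {y | ∃ x ∈ S, y ∈ f x}) hW (Set.toFinite _)).trans
    ((ncard_ex_le S f m h).trans (Nat.mul_le_mul_right _ hn))

end count

section dirs

variable {V : Type}

/-- The node digraph in direction `b`. -/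
def Qd (R : Set (V × V)) (σ : Equiv.Perm V) (b : Bool) : Set (V × V) :=
  match b with
  | true => qd R σ
  | false => rv (qd R σ)

/-- The step of the labels in direction `b`. -/
def dl (b : Bool) : Lab :=
  match b with
  | true => 1
  | false => -1

lemma dl_or (b : Bool) : dl b = 1 ∨ dl b = -1 := by
  cases b
  · exact Or.inr rfl
  · exact Or.inl rfl

variable {σ : Equiv.Perm V} {a : ℕ} (B : BS σ (2 ^ a)) (ω : V → Om a)

def Ea (b : Bool) : Set (V × Lab) :=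
  match b with
  | true => ET B ω
  | false => EH B ω

def Eb (b : Bool) : Set (V × Lab) :=
  match b with
  | true => EH B ω
  | false => ET B ω

/-- The sinks in direction `b`. -/
def ZZ (σ : Equiv.Perm V) (Zp Zm : Set V) (b : Bool) : Set (V × Lab) :=
  match b with
  | true => {p' | p'.1 ∈ Zp}
  | false => {p' | σ p'.1 ∈ Zm}

lemma out_Qd_ncard_le {R : Set (V × V)} {m : ℕ}
    (h : ∀ x, (out R x).ncard ≤ m ∧ (inn R x).ncard ≤ m) (b : Bool) (x : V) :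
    (out (Qd R σ b) x).ncard ≤ m ∧ (inn (Qd R σ b) x).ncard ≤ m := by
  cases b
  · refine ⟨(h (σ x)).2, ?_⟩
    show (out (qd R σ) x).ncard ≤ m
    rw [out_qd_ncard]
    exact (h x).1
  · refine ⟨?_, (h (σ x)).2⟩
    show (out (qd R σ) x).ncard ≤ m
    rw [out_qd_ncard]
    exact (h x).1

lemma le_out_Qd_ncard {R : Set (V × V)} {m : ℕ}
    (h : ∀ x, m ≤ 2 * (out R x).ncard ∧ m ≤ 2 * (inn R x).ncard) (b : Bool) (x : V) :
    m ≤ 2 * (out (Qd R σ b) x).ncard := by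
  cases b
  · exact (h (σ x)).2
  · show m ≤ 2 * (out (qd R σ) x).ncard
    rw [out_qd_ncard]
    exact (h x).1

end dirs

/-- The condition for the class with blocks `B` in direction `b`. -/
def NCb {V : Type} [Fintype V] {σ : Equiv.Perm V} {a : ℕ} (B : BS σ (2 ^ a)) (R : Set (V × V))
    (k0 : ℕ) (β : ℝ) (b : Bool) (ω : V → Om a) (T0 T : Set (V × Lab)) : Prop :=
  NC (Qd R σ b) (dl b) k0 (rr a) β (FL B ω) (Ea B ω b) (Eb B ω b) T0 T

lemma ncb_prob (hNcp : NcpStmt) {V : Type} [Fintype V] [DecidableEq V] {σ : Equiv.Perm V} {a : ℕ}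
    (B : BS σ (2 ^ a)) (R : Set (V × V)) (k0 : ℕ) (β : ℝ) (b : Bool) (T0 T : Set (V × Lab))
    (ha : 20 ≤ a) (hc : Cyc σ (2 ^ a)) (hk : 1 ≤ k0)
    (h : ∀ x, (out R x).ncard ≤ k0 ∧ (inn R x).ncard ≤ k0) (hβ : 0 ≤ β) :
    ({ω | ¬ NCb B R k0 β b ω T0 T}.ncard : ℝ) ≤
      6 * Real.exp (-(th * (β * T.ncard))) * Fintype.card (V → Om a) := by
  have := hNcp V σ a B (Qd R σ b) (dl b) k0 β T0 T ha hc hk
    (fun x => (out_Qd_ncard_le h b x).1) hβ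
  cases b
  · exact this.2
  · exact this.1

lemma ncb_local (hSup : SupStmt) (hLoc : LocStmt) {V : Type} [Fintype V] [DecidableEq V]
    {σ : Equiv.Perm V} {a : ℕ}
    (B : BS σ (2 ^ a)) (R : Set (V × V)) (k0 : ℕ) (β : ℝ) (b : Bool) (T0 T : Set (V × Lab))
    (ω ω' : V → Om a) (ha : 20 ≤ a) (hk : 1 ≤ k0)
    (h : ∀ x, k0 ≤ 2 * (out R x).ncard ∧ k0 ≤ 2 * (inn R x).ncard) (hT : T0 ⊆ T)
    (hω : ∀ p ∈ T, ∀ v ∈ rho (Qd R σ b) p.1, ∀ v' ∈ nb B v, ω v' = ω' v')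
    (hn : NCb B R k0 β b ω T0 T) : NCb B R k0 β b ω' T0 T := by
  refine hSup V (Qd R σ b) (dl b) k0 (rr a) β _ _ _ _ _ _ T0 T (dl_or b) hk
    (fun x => le_out_Qd_ncard h b x) hT ?_ hn
  intro p hp v hv i
  obtain ⟨h1, h2, h3, h4⟩ := hLoc V σ a B ω ω' v (by omega) (hω p hp v hv)
  have e1 : (v, i) ∈ FL B ω ↔ (v, i) ∈ FL B ω' := by
    simp only [FL, Set.mem_ofPred_eq]; rw [h1, h3]
  have e2 : (v, i) ∈ ET B ω ↔ (v, i) ∈ ET B ω' := by
    simp only [ET, Set.mem_ofPred_eq]; rw [h2, h3]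
  have e3 : (v, i) ∈ EH B ω ↔ (v, i) ∈ EH B ω' := by
    simp only [EH, Set.mem_ofPred_eq]; rw [h2, h4]
  refine ⟨e1, ?_⟩
  cases b
  · exact ⟨e3, e2⟩
  · exact ⟨e2, e3⟩

section setup

variable {V : Type} [Fintype V] [DecidableEq V]

/-- The classes of the block. -/
abbrev Gm (C : Finset ℕ) := {c // c ∈ C}

/-- The indices of the fingerprint events. -/
abbrev Nu (V : Type) (C : Finset ℕ) := Gm C × Bool × (V × Lab)

/-- The indices of the other events. -/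
abbrev Jx (V : Type) (C : Finset ℕ) := (Gm C × Bool × Bool × (V × Lab)) ⊕ (Bool × V)

variable (C : Finset ℕ) (σ : ℕ → Equiv.Perm V) {a : ℕ} (B : (c : ℕ) → BS (σ c) (2 ^ a))
  (R : Set (V × V)) (Zp Zm : Set V) (k0 : ℕ) (β s1 s2 : ℝ) (l : ℕ)

def GG (t t' : Nu V C) : Prop :=
  t.1 = t'.1 ∧ t.2.1 = t'.2.1 ∧ gam (Qd R (σ t.1) t.2.1) t.2.2 t'.2.2

def scp (t : Nu V C) : Set (Gm C × V) :=
  {i | i.1 = t.1 ∧ ∃ v ∈ rho (Qd R (σ t.1) t.2.1) t.2.2.1, i.2 ∈ nb (B t.1) v}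

def pr (T : Finset (Nu V C)) : Set (V × Lab) := {p | ∃ t ∈ T, t.2.2 = p}

def evT (T : Finset (Nu V C)) : Set (Gm C × V → Om a) :=
  {ω | ∃ (c : Gm C) (b : Bool), (∀ t ∈ T, t.1 = c ∧ t.2.1 = b) ∧
    ∃ T0 ⊆ pr C T, ¬ NCb (B c) R k0 β b (fun v => ω (c, v)) T0 (pr C T)}

def yy (b : Bool) (v : V) (c : ℕ) : V :=
  match b with
  | true => v
  | false => (σ c)⁻¹ v

def sjj (j : Jx V C) : Set (Gm C × V) :=
  match j with
  | Sum.inl (c, b, _, p) => {i | i.1 = c ∧ ∃ v ∈ out (Qd R (σ c) b) p.1, i.2 ∈ nb (B c) v}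
  | Sum.inr (b, v) => {i | i.2 ∈ nb (B i.1) (yy σ b v i.1)}

def evJ (j : Jx V C) : Set (Gm C × V → Om a) :=
  match j with
  | Sum.inl (c, b, true, p) =>
    {ω | ((ow (Qd R (σ c) b) (dl b) p ∩ FL (B c) (fun v => ω (c, v)) ∩
      ZZ (σ c) Zp Zm b).ncard : ℝ) < s1}
  | Sum.inl (c, b, false, p) =>
    {ω | s2 < ((ow (Qd R (σ c) b) (dl b) p ∩ (FL (B c) (fun v => ω (c, v)) ∪
      Eb (B c) (fun v => ω (c, v)) b)).ncard : ℝ)}
  | Sum.inr (b, v) =>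
    {ω | 2 ^ (l + 4) < {c : Gm C | yy σ b v c ∈ pk (B c) (fun v => ω (c, v))}.ncard}

lemma evT_local (hSup : SupStmt) (hLoc : LocStmt) (ha : 20 ≤ a) (hk : 1 ≤ k0)
    (h : ∀ x, k0 ≤ 2 * (out R x).ncard ∧ k0 ≤ 2 * (inn R x).ncard) (T : Finset (Nu V C))
    (ω ω' : Gm C × V → Om a) (hω : ∀ t ∈ T, ∀ i ∈ scp C σ B R t, ω i = ω' i)
    (hT : ω ∈ evT C σ B R k0 β T) : ω' ∈ evT C σ B R k0 β T := by
  obtain ⟨c, b, hcb, T0, hT0, hn⟩ := hT
  refine ⟨c, b, hcb, T0, hT0, fun hn' => hn ?_⟩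
  refine ncb_local hSup hLoc (B c) R k0 β b T0 _ _ _ ha hk h hT0 ?_ hn'
  rintro p ⟨t, ht, rfl⟩ v hv v' hv'
  obtain ⟨h1, h2⟩ := hcb t ht
  refine (hω t ht (c, v') ⟨h1.symm, v, ?_, ?_⟩).symm
  · rw [h1, h2]; exact hv
  · rw [h1]; exact hv'

lemma pk_local (hLoc : LocStmt) {σ : Equiv.Perm V} {a : ℕ} (B : BS σ (2 ^ a)) (ω ω' : V → Om a)
    (ha : 20 ≤ a) (v : V) (hω : ∀ v' ∈ nb B v, ω v' = ω' v') : v ∈ pk B ω ↔ v ∈ pk B ω' := by
  obtain ⟨h1, h2, h3, h4⟩ := hLoc V σ a B ω ω' v (by omega) hω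
  simp only [pk, Set.mem_ofPred_eq]
  rw [h1, h2]

lemma node_local (hLoc : LocStmt) {σ : Equiv.Perm V} {a : ℕ} (B : BS σ (2 ^ a)) (ω ω' : V → Om a)
    (ha : 20 ≤ a) (v : V) (hω : ∀ v' ∈ nb B v, ω v' = ω' v') (i : Lab) :
    ((v, i) ∈ FL B ω ↔ (v, i) ∈ FL B ω') ∧ ∀ b, ((v, i) ∈ Eb B ω b ↔ (v, i) ∈ Eb B ω' b) := by
  obtain ⟨h1, h2, h3, h4⟩ := hLoc V σ a B ω ω' v (by omega) hω
  have e1 : (v, i) ∈ FL B ω ↔ (v, i) ∈ FL B ω' := by
    simp only [FL, Set.mem_ofPred_eq]; rw [h1, h3]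
  have e2 : (v, i) ∈ ET B ω ↔ (v, i) ∈ ET B ω' := by
    simp only [ET, Set.mem_ofPred_eq]; rw [h2, h3]
  have e3 : (v, i) ∈ EH B ω ↔ (v, i) ∈ EH B ω' := by
    simp only [EH, Set.mem_ofPred_eq]; rw [h2, h4]
  refine ⟨e1, ?_⟩
  intro b
  cases b
  · exact e2
  · exact e3

lemma evJ_local (hLoc : LocStmt) (ha : 20 ≤ a) (j : Jx V C) (ω ω' : Gm C × V → Om a)
    (hω : ∀ i ∈ sjj C σ B R j, ω i = ω' i)
    (hT : ω ∈ evJ C σ B R Zp Zm s1 s2 l j) : ω' ∈ evJ C σ B R Zp Zm s1 s2 l j := by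
  rcases j with ⟨c, b, kd, p⟩ | ⟨b, v⟩
  · have key : ∀ p' ∈ ow (Qd R (σ c) b) (dl b) p,
        (p' ∈ FL (B c) (fun v => ω (c, v)) ↔ p' ∈ FL (B c) (fun v => ω' (c, v))) ∧
        (p' ∈ Eb (B c) (fun v => ω (c, v)) b ↔ p' ∈ Eb (B c) (fun v => ω' (c, v)) b) := by
      rintro ⟨v, i⟩ hp'
      have h2 := node_local hLoc (B c) (fun v => ω (c, v)) (fun v => ω' (c, v)) ha v
        (fun v' hv' => hω (c, v') ⟨rfl, v, hp'.1, hv'⟩) i
      exact ⟨h2.1, h2.2 b⟩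
    cases kd
    · have e : ow (Qd R (σ c) b) (dl b) p ∩ (FL (B c) (fun v => ω (c, v)) ∪
          Eb (B c) (fun v => ω (c, v)) b) = ow (Qd R (σ c) b) (dl b) p ∩
          (FL (B c) (fun v => ω' (c, v)) ∪ Eb (B c) (fun v => ω' (c, v)) b) := by
        ext p'
        constructor
        · rintro ⟨h1, h2 | h2⟩
          · exact ⟨h1, Or.inl ((key p' h1).1.1 h2)⟩
          · exact ⟨h1, Or.inr ((key p' h1).2.1 h2)⟩
        · rintro ⟨h1, h2 | h2⟩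
          · exact ⟨h1, Or.inl ((key p' h1).1.2 h2)⟩
          · exact ⟨h1, Or.inr ((key p' h1).2.2 h2)⟩
      show s2 < _
      rw [← e]
      exact hT
    · have e : ow (Qd R (σ c) b) (dl b) p ∩ FL (B c) (fun v => ω (c, v)) ∩
          ZZ (σ c) Zp Zm b = ow (Qd R (σ c) b) (dl b) p ∩
          FL (B c) (fun v => ω' (c, v)) ∩ ZZ (σ c) Zp Zm b := by
        ext p'
        constructor
        · rintro ⟨⟨h1, h2⟩, h3⟩
          exact ⟨⟨h1, (key p' h1).1.1 h2⟩, h3⟩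
        · rintro ⟨⟨h1, h2⟩, h3⟩
          exact ⟨⟨h1, (key p' h1).1.2 h2⟩, h3⟩
      show _ < s1
      rw [← e]
      exact hT
  · have e : {c : Gm C | yy σ b v c ∈ pk (B c) (fun v => ω (c, v))} =
        {c : Gm C | yy σ b v c ∈ pk (B c) (fun v => ω' (c, v))} := by
      ext c
      exact pk_local hLoc (B c) _ _ ha _ (fun v' hv' => hω (c, v') hv')
    show 2 ^ (l + 4) < _
    rw [← e]
    exact hT

/-! ### sizes of the scopes -/

lemma nb_le (hNbh : NbhStmt) {σ : Equiv.Perm V} {a : ℕ} (B : BS σ (2 ^ a)) (v : V) :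
    (nb B v).ncard ≤ 6 * 2 ^ a ∧ {v' | v ∈ nb B v'}.ncard ≤ 6 * 2 ^ a :=
  hNbh V σ (2 ^ a) B Nat.one_le_two_pow v

lemma num1 {k l a : ℕ} (h : 2 ^ (a + l + 10) ≤ k) : 12 * 2 ^ a ≤ k := by
  have : 2 ^ (a + l + 10) = 2 ^ a * 2 ^ l * 1024 := by ring
  have h2 : 1 ≤ 2 ^ l := Nat.one_le_two_pow
  have h3 : 2 ^ a * 1 ≤ 2 ^ a * 2 ^ l := Nat.mul_le_mul_left _ h2
  omega

lemma scp_le (hRho : RhoStmt) (hNbh : NbhStmt) (k : ℕ) (hk : 1 ≤ k) (hak : 12 * 2 ^ a ≤ k)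
    (h : ∀ x, (out R x).ncard ≤ k ∧ (inn R x).ncard ≤ k) (t : Nu V C) :
    (scp C σ B R t).ncard ≤ k ^ 3 := by
  obtain ⟨r1, r2, r3⟩ := hRho V (Qd R (σ t.1) t.2.1) k hk (fun x => out_Qd_ncard_le h _ x)
  have := ncard_le_mul_of_subset (W := scp C σ B R t) (rho (Qd R (σ t.1) t.2.1) t.2.2.1)
    (fun v => (fun v' => (t.1, v')) '' nb (B t.1) v) (2 * k ^ 2) (6 * 2 ^ a) (r1 _)
    (fun v _ => (Set.ncard_image_le (Set.toFinite _)).trans (nb_le hNbh (B t.1) v).1)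
    (by
      rintro ⟨c, v'⟩ ⟨h1, v, hv, hv'⟩
      refine ⟨v, hv, v', hv', ?_⟩
      simp only at h1
      rw [h1])
  calc (scp C σ B R t).ncard ≤ 2 * k ^ 2 * (6 * 2 ^ a) := this
    _ = k ^ 2 * (12 * 2 ^ a) := by ring
    _ ≤ k ^ 2 * k := Nat.mul_le_mul_left _ hak
    _ = k ^ 3 := by ring

lemma scp_co_le (hRho : RhoStmt) (hNbh : NbhStmt) (k : ℕ) (hk : 1 ≤ k) (hak : 12 * 2 ^ a ≤ k)
    (h : ∀ x, (out R x).ncard ≤ k ∧ (inn R x).ncard ≤ k) (i : Gm C × V) :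
    {t | i ∈ scp C σ B R t}.ncard ≤ 2 ^ 13 * k ^ 3 := by
  have hX : ∀ b, {x | ∃ v ∈ rho (Qd R (σ i.1) b) x, i.2 ∈ nb (B i.1) v}.ncard ≤
      6 * 2 ^ a * (2 * k ^ 2) := by
    intro b
    obtain ⟨r1, r2, r3⟩ := hRho V (Qd R (σ i.1) b) k hk (fun x => out_Qd_ncard_le h _ x)
    refine ncard_le_mul_of_subset {v | i.2 ∈ nb (B i.1) v}
      (fun v => {x | v ∈ rho (Qd R (σ i.1) b) x}) _ _ (nb_le hNbh (B i.1) i.2).2
      (fun v _ => r2 v) ?_
    rintro x ⟨v, hv, hv'⟩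
    exact ⟨v, hv', hv⟩
  have h2 : ∀ b, ((fun p : V × Lab => ((i.1, b, p) : Nu V C)) ''
      ({x | ∃ v ∈ rho (Qd R (σ i.1) b) x, i.2 ∈ nb (B i.1) v} ×ˢ (Set.univ : Set Lab))).ncard ≤
      6 * 2 ^ a * (2 * k ^ 2) * 4096 := by
    intro b
    refine (Set.ncard_image_le (Set.toFinite _)).trans ?_
    rw [Set.ncard_prod, Set.ncard_univ, Nat.card_eq_fintype_card, ZMod.card]
    exact Nat.mul_le_mul_right _ (hX b)
  have := ncard_le_mul_of_subset (W := {t | i ∈ scp C σ B R t}) (Set.univ : Set Bool)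
    (fun b => (fun p : V × Lab => ((i.1, b, p) : Nu V C)) ''
      ({x | ∃ v ∈ rho (Qd R (σ i.1) b) x, i.2 ∈ nb (B i.1) v} ×ˢ (Set.univ : Set Lab)))
    2 (6 * 2 ^ a * (2 * k ^ 2) * 4096) (by simp) (fun b _ => h2 b)
    (by
      rintro ⟨c, b, p⟩ ⟨h1, v, hv, hv'⟩
      simp only at h1 hv hv'
      subst h1
      exact ⟨b, trivial, p, ⟨⟨v, hv, hv'⟩, trivial⟩, rfl⟩)
  calc {t | i ∈ scp C σ B R t}.ncard ≤ 2 * (6 * 2 ^ a * (2 * k ^ 2) * 4096) := this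
    _ = 2 ^ 13 * k ^ 2 * (12 * 2 ^ a) := by ring
    _ ≤ 2 ^ 13 * k ^ 2 * k := Nat.mul_le_mul_left _ hak
    _ = 2 ^ 13 * k ^ 3 := by ring

lemma sjj_le (hNbh : NbhStmt) (k l : ℕ) (hk : 1 ≤ k) (hak : 12 * 2 ^ a ≤ k)
    (ha : 20 ≤ a) (hkk : 2 ^ (a + l + 10) ≤ k) (hC : C.card ≤ 2 ^ (a + l - 6))
    (h : ∀ x, (out R x).ncard ≤ k ∧ (inn R x).ncard ≤ k) (j : Jx V C) :
    (sjj C σ B R j).ncard ≤ k ^ 3 := by
  rcases j with ⟨c, b, kd, p⟩ | ⟨b, v⟩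
  · have := ncard_le_mul_of_subset (W := sjj C σ B R (Sum.inl (c, b, kd, p)))
      (out (Qd R (σ c) b) p.1)
      (fun v => (fun v' => (c, v')) '' nb (B c) v) k (6 * 2 ^ a) (out_Qd_ncard_le h b p.1).1
      (fun v _ => (Set.ncard_image_le (Set.toFinite _)).trans (nb_le hNbh (B c) v).1)
      (by
        rintro ⟨c', v'⟩ ⟨h1, v, hv, hv'⟩
        simp only at h1
        subst h1
        exact ⟨v, hv, v', hv', rfl⟩)
    calc _ ≤ k * (6 * 2 ^ a) := this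
      _ ≤ k * k := Nat.mul_le_mul_left _ (by omega)
      _ ≤ k * k * k := Nat.le_mul_of_pos_right _ (by omega)
      _ = k ^ 3 := by ring
  · have := ncard_le_mul_of_subset (W := sjj C σ B R (Sum.inr (b, v))) (Set.univ : Set (Gm C))
      (fun c => (fun v' => (c, v')) '' nb (B c) (yy σ b v c)) C.card (6 * 2 ^ a)
      (by simp)
      (fun c _ => (Set.ncard_image_le (Set.toFinite _)).trans (nb_le hNbh (B c) _).1)
      (by
        rintro ⟨c, v'⟩ hh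
        exact ⟨c, trivial, v', hh, rfl⟩)
    have h3 : 2 ^ (a + l - 6) ≤ k := (Nat.pow_le_pow_right (by norm_num) (by omega)).trans hkk
    calc _ ≤ C.card * (6 * 2 ^ a) := this
      _ ≤ k * k := Nat.mul_le_mul (hC.trans h3) (by omega)
      _ ≤ k * k * k := Nat.le_mul_of_pos_right _ (by omega)
      _ = k ^ 3 := by ring

lemma sjj_co_le (hNbh : NbhStmt) (k : ℕ) (hk : 1 ≤ k) (hak : 12 * 2 ^ a ≤ k)
    (h : ∀ x, (out R x).ncard ≤ k ∧ (inn R x).ncard ≤ k) (i : Gm C × V) :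
    {j | i ∈ sjj C σ B R j}.ncard ≤ 2 ^ 13 * k ^ 3 := by
  have hX : ∀ b, {x | ∃ v ∈ out (Qd R (σ i.1) b) x, i.2 ∈ nb (B i.1) v}.ncard ≤
      6 * 2 ^ a * k := by
    intro b
    refine ncard_le_mul_of_subset {v | i.2 ∈ nb (B i.1) v}
      (fun v => inn (Qd R (σ i.1) b) v) _ _ (nb_le hNbh (B i.1) i.2).2
      (fun v _ => (out_Qd_ncard_le h b v).2) ?_
    rintro x ⟨v, hv, hv'⟩
    exact ⟨v, hv', hv⟩
  have h2 : ∀ b : Bool × Bool, ((fun p : V × Lab => (Sum.inl (i.1, b.1, b.2, p) : Jx V C)) ''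
      ({x | ∃ v ∈ out (Qd R (σ i.1) b.1) x, i.2 ∈ nb (B i.1) v} ×ˢ (Set.univ : Set Lab))).ncard ≤
      6 * 2 ^ a * k * 4096 := by
    intro b
    refine (Set.ncard_image_le (Set.toFinite _)).trans ?_
    rw [Set.ncard_prod, Set.ncard_univ, Nat.card_eq_fintype_card, ZMod.card]
    exact Nat.mul_le_mul_right _ (hX b.1)
  have h3 : {j | (∃ x, j = Sum.inl x) ∧ i ∈ sjj C σ B R j}.ncard ≤ 4 * (6 * 2 ^ a * k * 4096) := by
    refine ncard_le_mul_of_subset (Set.univ : Set (Bool × Bool)) (fun b =>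
      (fun p : V × Lab => (Sum.inl (i.1, b.1, b.2, p) : Jx V C)) ''
      ({x | ∃ v ∈ out (Qd R (σ i.1) b.1) x, i.2 ∈ nb (B i.1) v} ×ˢ (Set.univ : Set Lab)))
      4 (6 * 2 ^ a * k * 4096) (by simp [Set.ncard_univ, Nat.card_eq_fintype_card])
      (fun b _ => h2 b) ?_
    rintro _ ⟨⟨⟨c, b, kd, p⟩, rfl⟩, h1, v, hv, hv'⟩
    subst h1
    exact ⟨(b, kd), trivial, p, ⟨⟨v, hv, hv'⟩, trivial⟩, rfl⟩
  have h4 : ∀ b : Bool, {v | i.2 ∈ nb (B i.1) (yy σ b v i.1)}.ncard ≤ 6 * 2 ^ a := by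
    intro b
    cases b
    · have : {v | i.2 ∈ nb (B i.1) (yy σ false v i.1)} = (σ i.1) '' {v | i.2 ∈ nb (B i.1) v} := by
        ext v
        constructor
        · intro hv
          exact ⟨(σ i.1)⁻¹ v, hv, by simp⟩
        · rintro ⟨v', hv', rfl⟩
          show i.2 ∈ nb (B i.1) ((σ i.1)⁻¹ ((σ i.1) v'))
          simpa using hv'
      rw [this]
      exact (Set.ncard_image_le (Set.toFinite _)).trans (nb_le hNbh (B i.1) i.2).2
    · exact (nb_le hNbh (B i.1) i.2).2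
  have h5 : {j | (∃ x, j = Sum.inr x) ∧ i ∈ sjj C σ B R j}.ncard ≤ 2 * (6 * 2 ^ a) := by
    refine ncard_le_mul_of_subset (Set.univ : Set Bool) (fun b =>
      (fun v : V => (Sum.inr (b, v) : Jx V C)) '' {v | i.2 ∈ nb (B i.1) (yy σ b v i.1)})
      2 (6 * 2 ^ a) (by simp)
      (fun b _ => (Set.ncard_image_le (Set.toFinite _)).trans (h4 b)) ?_
    rintro _ ⟨⟨⟨b, v⟩, rfl⟩, h1⟩
    exact ⟨b, trivial, v, h1, rfl⟩
  have h6 : {j | i ∈ sjj C σ B R j} ⊆ {j | (∃ x, j = Sum.inl x) ∧ i ∈ sjj C σ B R j} ∪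
      {j | (∃ x, j = Sum.inr x) ∧ i ∈ sjj C σ B R j} := by
    rintro (x | x) hj
    · exact Or.inl ⟨⟨x, rfl⟩, hj⟩
    · exact Or.inr ⟨⟨x, rfl⟩, hj⟩
  have h7 := (Set.ncard_le_ncard h6 (Set.toFinite _)).trans (Set.ncard_union_le _ _)
  have h8 : 4 * (6 * 2 ^ a * k * 4096) = 2 ^ 13 * (12 * 2 ^ a) * k := by ring
  have h9 : 2 ^ 13 * (12 * 2 ^ a) * k ≤ 2 ^ 13 * k * k :=
    Nat.mul_le_mul_right _ (Nat.mul_le_mul_left _ hak)
  have h10 : 12 ≤ k := le_trans (by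
    have : 1 ≤ 2 ^ a := Nat.one_le_two_pow
    omega) hak
  calc {j | i ∈ sjj C σ B R j}.ncard ≤ 2 ^ 13 * k * k + 2 * (6 * 2 ^ a) :=
        h7.trans (Nat.add_le_add (h3.trans (h8.trans_le h9)) h5)
    _ ≤ 2 ^ 13 * k * k + k := by omega
    _ ≤ 2 ^ 13 * k * k + 2 ^ 13 * k * k := by
      have : k * 1 ≤ k * k := Nat.mul_le_mul_left _ hk
      nlinarith
    _ = 2 ^ 13 * k * k * 2 := by ring
    _ ≤ 2 ^ 13 * k * k * k := Nat.mul_le_mul_left _ (by omega)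
    _ = 2 ^ 13 * k ^ 3 := by ring

lemma GG_symm {C : Finset ℕ} {σ : ℕ → Equiv.Perm V} {R : Set (V × V)} (t t' : Nu V C)
    (h : GG C σ R t t') : GG C σ R t' t := by
  obtain ⟨h1, h2, h3⟩ := h
  refine ⟨h1.symm, h2.symm, ?_⟩
  rw [← h1, ← h2]
  exact gam_symm h3

lemma GG_le (hRho : RhoStmt) (k : ℕ) (hk : 1 ≤ k)
    (h : ∀ x, (out R x).ncard ≤ k ∧ (inn R x).ncard ≤ k) (t : Nu V C) :
    {t' | GG C σ R t t'}.ncard ≤ 2 ^ 14 * k ^ 4 := by
  obtain ⟨r1, r2, r3⟩ := hRho V (Qd R (σ t.1) t.2.1) k hk (fun x => out_Qd_ncard_le h _ x)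
  have h1 : {t' | GG C σ R t t'} ⊆ (fun p : V × Lab => ((t.1, t.2.1, p) : Nu V C)) ''
      {p' | gam (Qd R (σ t.1) t.2.1) t.2.2 p'} := by
    rintro ⟨c, b, p⟩ ⟨h1, h2, h3⟩
    simp only at h1 h2
    subst h1
    subst h2
    exact ⟨p, h3, rfl⟩
  exact (Set.ncard_le_ncard h1 (Set.toFinite _)).trans
    ((Set.ncard_image_le (Set.toFinite _)).trans (r3 _))

end setup

section prob

variable {V : Type} [Fintype V] [DecidableEq V]
variable (C : Finset ℕ) (σ : ℕ → Equiv.Perm V) {a : ℕ} (B : (c : ℕ) → BS (σ c) (2 ^ a))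
  (R : Set (V × V)) (Zp Zm : Set V) (k0 : ℕ) (β s1 s2 : ℝ) (l : ℕ)

lemma bld_card {ν : Type} [DecidableEq ν] {G : ν → ν → Prop} {T : Finset ν} (h : Bld G T) :
    1 ≤ T.card := by
  induction h with
  | one t => simp
  | add T t t' _ _ _ ih =>
    exact ih.trans (Finset.card_le_card (Finset.subset_insert _ _))

lemma bld_const {C : Finset ℕ} {σ : ℕ → Equiv.Perm V} {R : Set (V × V)} {T : Finset (Nu V C)}
    (h : Bld (GG C σ R) T) : ∃ c b, ∀ t ∈ T, t.1 = c ∧ t.2.1 = b := by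
  induction h with
  | one t => exact ⟨t.1, t.2.1, fun t' ht' => by rw [Finset.mem_singleton.1 ht']; exact ⟨rfl, rfl⟩⟩
  | add T t t' _ ht hG ih =>
    obtain ⟨c, b, hcb⟩ := ih
    refine ⟨c, b, fun t'' ht'' => ?_⟩
    rcases Finset.mem_insert.1 ht'' with rfl | h
    · obtain ⟨h1, h2⟩ := hcb t ht
      exact ⟨hG.1 ▸ h1, hG.2.1 ▸ h2⟩
    · exact hcb t'' h

lemma evT_prob (hNcp : NcpStmt) (hLift : LiftStmt) (ha : 20 ≤ a)
    (hcyc : ∀ c, Cyc (σ c) (2 ^ a)) (hk : 1 ≤ k0)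
    (h : ∀ x, (out R x).ncard ≤ k0 ∧ (inn R x).ncard ≤ k0) (hβ : 0 ≤ β) (p : ℝ)
    (hp : 2 * (6 * Real.exp (-(th * β))) ≤ p) (T : Finset (Nu V C))
    (hT : Bld (GG C σ R) T) :
    ((evT C σ B R k0 β T).ncard : ℝ) ≤ p ^ T.card * Fintype.card (Gm C × V → Om a) := by
  obtain ⟨c, b, hcb⟩ := bld_const hT
  have hcard : 1 ≤ T.card := bld_card hT
  have hn : (pr C T).ncard = T.card := by
    have e : pr C T = (fun t : Nu V C => t.2.2) '' (T : Set (Nu V C)) := by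
      ext p
      constructor
      · rintro ⟨t, ht, rfl⟩
        exact ⟨t, ht, rfl⟩
      · rintro ⟨t, ht, rfl⟩
        exact ⟨t, ht, rfl⟩
    rw [e, Set.InjOn.ncard_image, Set.ncard_coe_finset]
    rintro t ht t' ht' htt
    obtain ⟨h1, h2⟩ := hcb t ht
    obtain ⟨h3, h4⟩ := hcb t' ht'
    exact Prod.ext (h1.trans h3.symm) (Prod.ext (h2.trans h4.symm) htt)
  obtain ⟨t0, ht0⟩ : ∃ t0, t0 ∈ T := Finset.card_pos.1 hcard
  have hsub : evT C σ B R k0 β T ⊆ {ω | ∃ T0 ∈ 𝒫 (pr C T), ω ∈ {ω : Gm C × V → Om a |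
      (fun v => ω (c, v)) ∈ {ω' : V → Om a | ¬ NCb (B c) R k0 β b ω' T0 (pr C T)}}} := by
    rintro ω ⟨c', b', hcb', T0, hT0, hn'⟩
    obtain ⟨h1, h2⟩ := hcb t0 ht0
    obtain ⟨h3, h4⟩ := hcb' t0 ht0
    have e1 : c' = c := h3.symm.trans h1
    have e2 : b' = b := h4.symm.trans h2
    subst e1
    subst e2
    exact ⟨T0, hT0, hn'⟩
  set x : ℝ := Real.exp (-(th * β)) with hx
  have hx0 : 0 ≤ x := (Real.exp_pos _).le
  have hexp : Real.exp (-(th * (β * (pr C T).ncard))) = x ^ T.card := by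
    rw [hn, hx, ← Real.exp_nat_mul]
    congr 1
    ring
  have h1 : ∀ T0 ∈ 𝒫 (pr C T), (({ω : Gm C × V → Om a |
      (fun v => ω (c, v)) ∈ {ω' : V → Om a | ¬ NCb (B c) R k0 β b ω' T0 (pr C T)}}.ncard : ℕ) : ℝ)
      ≤ 6 * x ^ T.card * Fintype.card (Gm C × V → Om a) := by
    intro T0 _
    refine hLift V (Gm C) (Om a) c {ω' : V → Om a | ¬ NCb (B c) R k0 β b ω' T0 (pr C T)}
      (6 * x ^ T.card) ?_
    have := ncb_prob hNcp (B c) R k0 β b T0 (pr C T) ha (hcyc c) hk h hβ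
    rw [hexp] at this
    exact this
  have h2 := ncard_ex_le_real (𝒫 (pr C T)) (fun T0 => {ω : Gm C × V → Om a |
      (fun v => ω (c, v)) ∈ {ω' : V → Om a | ¬ NCb (B c) R k0 β b ω' T0 (pr C T)}}) _ h1
  have h3 : ((evT C σ B R k0 β T).ncard : ℝ) ≤ ({ω | ∃ T0 ∈ 𝒫 (pr C T), ω ∈
      {ω : Gm C × V → Om a | (fun v => ω (c, v)) ∈
        {ω' : V → Om a | ¬ NCb (B c) R k0 β b ω' T0 (pr C T)}}}.ncard : ℝ) := by
    exact_mod_cast Set.ncard_le_ncard hsub (Set.toFinite _)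
  refine (h3.trans h2).trans ?_
  rw [Set.ncard_powerset, hn]
  have h4 : ((2 ^ T.card : ℕ) : ℝ) * (6 * x ^ T.card * Fintype.card (Gm C × V → Om a)) =
      (2 ^ T.card * 6 * x ^ T.card) * Fintype.card (Gm C × V → Om a) := by
    push_cast; ring
  rw [h4]
  apply mul_le_mul_of_nonneg_right _ (Nat.cast_nonneg _)
  calc (2 : ℝ) ^ T.card * 6 * x ^ T.card ≤ 2 ^ T.card * 6 ^ T.card * x ^ T.card := by
        apply mul_le_mul_of_nonneg_right _ (by positivity)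
        apply mul_le_mul_of_nonneg_left _ (by positivity)
        calc (6 : ℝ) = 6 ^ 1 := by norm_num
          _ ≤ 6 ^ T.card := pow_le_pow_right₀ (by norm_num) hcard
    _ = (2 * (6 * x)) ^ T.card := by rw [← mul_assoc, mul_pow, mul_pow]
    _ ≤ p ^ T.card := pow_le_pow_left₀ (by positivity) hp _

lemma ow_Qd_ZZ_ncard (σ : Equiv.Perm V) (b : Bool) (p : V × Lab) (ζ : ℝ)
    (hζ : ∀ x, ζ ≤ ({v | (x, σ v) ∈ R ∧ v ∈ Zp}.ncard : ℝ) ∧
      ζ ≤ ({v | (v, x) ∈ R ∧ σ v ∈ Zm}.ncard : ℝ)) :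
    2 * ζ ≤ ((ow (Qd R σ b) (dl b) p ∩ ZZ σ Zp Zm b).ncard : ℝ) := by
  have hne : p.2 + dl b ≠ p.2 + 2 * dl b := fun h => lab_ne (dl_or b) (add_left_cancel h)
  have hpair : ({p.2 + dl b, p.2 + 2 * dl b} : Set Lab).ncard = 2 := Set.ncard_pair hne
  cases b
  · have e : ow (Qd R σ false) (dl false) p ∩ ZZ σ Zp Zm false =
        {v | (v, σ p.1) ∈ R ∧ σ v ∈ Zm} ×ˢ ({p.2 + dl false, p.2 + 2 * dl false} : Set Lab) := by
      ext ⟨v, i⟩
      constructor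
      · rintro ⟨⟨h1, h2⟩, h3⟩
        exact ⟨⟨h1, h3⟩, h2⟩
      · rintro ⟨⟨h1, h3⟩, h2⟩
        exact ⟨⟨h1, h2⟩, h3⟩
    rw [e, Set.ncard_prod, hpair]
    push_cast
    have := (hζ (σ p.1)).2
    linarith
  · have e : ow (Qd R σ true) (dl true) p ∩ ZZ σ Zp Zm true =
        {v | (p.1, σ v) ∈ R ∧ v ∈ Zp} ×ˢ ({p.2 + dl true, p.2 + 2 * dl true} : Set Lab) := by
      ext ⟨v, i⟩
      constructor
      · rintro ⟨⟨h1, h2⟩, h3⟩
        exact ⟨⟨h1, h3⟩, h2⟩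
      · rintro ⟨⟨h1, h3⟩, h2⟩
        exact ⟨⟨h1, h2⟩, h3⟩
    rw [e, Set.ncard_prod, hpair]
    push_cast
    have := (hζ p.1).1
    linarith

lemma evJ_prob (hDev : DevStmt) (hLift : LiftStmt) (hBpk : BpkStmt) (ha : 20 ≤ a)
    (hC : C.card ≤ 2 ^ (a + l - 6)) (hcyc : ∀ c, Cyc (σ c) (2 ^ a)) (ζ : ℝ)
    (h : ∀ x, (out R x).ncard ≤ k0 ∧ (inn R x).ncard ≤ k0)
    (hζ : ∀ c ∈ C, ∀ x, ζ ≤ ({v | (x, σ c v) ∈ R ∧ v ∈ Zp}.ncard : ℝ) ∧
      ζ ≤ ({v | (v, x) ∈ R ∧ σ c v ∈ Zm}.ncard : ℝ))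
    (hζ2 : 2 ^ 27 * (2 : ℝ) ^ l ≤ rr a * ζ) (j : Jx V C) :
    ((evJ C σ B R Zp Zm (9 / 5 * rr a * ζ) (4 * k0 * rr a) l j).ncard : ℝ) ≤
      Real.exp (-(12 * (2 : ℝ) ^ l)) * Fintype.card (Gm C × V → Om a) := by
  have hl : (1 : ℝ) ≤ 2 ^ l := one_le_pow₀ (by norm_num)
  have hr := rr_pos a
  rcases j with ⟨c, b, kd, p⟩ | ⟨b, v⟩
  · cases kd
    · -- degrees
      have hζk : rr a * ζ ≤ rr a * k0 := by
        apply mul_le_mul_of_nonneg_left _ hr.le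
        refine (hζ c c.2 p.1).1.trans ?_
        have h1 : {v | (p.1, σ c v) ∈ R ∧ v ∈ Zp} ⊆ out (qd R (σ c)) p.1 := fun v hv => hv.1
        have h2 := Set.ncard_le_ncard h1 (Set.toFinite _)
        rw [out_qd_ncard] at h2
        exact_mod_cast h2.trans (h p.1).1
      have hd := hDev V (σ c) a (B c) (ow (Qd R (σ c) b) (dl b) p) (3 / 2 * k0 * rr a) ha (hcyc c)
        (by positivity)
      have hcard : ((ow (Qd R (σ c) b) (dl b) p).ncard : ℝ) ≤ 2 * k0 := by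
        rw [ow_ncard _ (dl_or b)]
        have := (out_Qd_ncard_le (σ := σ c) h b p.1).1
        push_cast
        have h' : ((out (Qd R (σ c) b) p.1).ncard : ℝ) ≤ k0 := by exact_mod_cast this
        linarith
      have hthx : 12 * (2 : ℝ) ^ l ≤ th * (3 / 2 * k0 * rr a) := by
        unfold th
        have : 2 ^ 27 * (2 : ℝ) ^ l ≤ rr a * k0 := hζ2.trans hζk
        nlinarith
      have hsub : evJ C σ B R Zp Zm (9 / 5 * rr a * ζ) (4 * k0 * rr a) l (Sum.inl (c, b, false, p))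
          ⊆ {ω : Gm C × V → Om a | (fun v => ω (c, v)) ∈ {ω' : V → Om a |
            5 / 4 * rr a * (ow (Qd R (σ c) b) (dl b) p).ncard + 3 / 2 * k0 * rr a <
              ((ow (Qd R (σ c) b) (dl b) p ∩ (FL (B c) ω' ∪ Eb (B c) ω' b)).ncard : ℝ)}} := by
        intro ω hω
        have hω' : 4 * k0 * rr a < ((ow (Qd R (σ c) b) (dl b) p ∩
          (FL (B c) (fun v => ω (c, v)) ∪ Eb (B c) (fun v => ω (c, v)) b)).ncard : ℝ) := hω
        show 5 / 4 * rr a * (ow (Qd R (σ c) b) (dl b) p).ncard + 3 / 2 * k0 * rr a < _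
        refine lt_of_le_of_lt ?_ hω'
        nlinarith
      have h3 : (({ω' : V → Om a |
            5 / 4 * rr a * (ow (Qd R (σ c) b) (dl b) p).ncard + 3 / 2 * k0 * rr a <
              ((ow (Qd R (σ c) b) (dl b) p ∩ (FL (B c) ω' ∪ Eb (B c) ω' b)).ncard : ℝ)}.ncard : ℕ)
              : ℝ) ≤ Real.exp (-(12 * (2 : ℝ) ^ l)) * Fintype.card (V → Om a) := by
        have h4 : Real.exp (-(th * (3 / 2 * k0 * rr a))) * Fintype.card (V → Om a) ≤
            Real.exp (-(12 * (2 : ℝ) ^ l)) * Fintype.card (V → Om a) := by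
          apply mul_le_mul_of_nonneg_right _ (Nat.cast_nonneg _)
          exact Real.exp_le_exp.2 (by linarith)
        refine le_trans ?_ h4
        cases b
        · exact hd.2.1
        · exact hd.2.2
      have h5 := hLift V (Gm C) (Om a) c _ _ h3
      refine le_trans ?_ h5
      exact_mod_cast Set.ncard_le_ncard hsub (Set.toFinite _)
    · -- sinks
      have hS := ow_Qd_ZZ_ncard R Zp Zm (σ c) b p ζ (hζ c c.2)
      have hd := (hDev V (σ c) a (B c) (ow (Qd R (σ c) b) (dl b) p ∩ ZZ (σ c) Zp Zm b)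
        (1 / 10 * (rr a * ζ)) ha (hcyc c) (by
          have : (0 : ℝ) ≤ 2 ^ 27 * (2 : ℝ) ^ l := by positivity
          linarith)).1
      have hthx : 12 * (2 : ℝ) ^ l ≤ th * (1 / 10 * (rr a * ζ)) := by
        unfold th
        linarith
      have hsub : evJ C σ B R Zp Zm (9 / 5 * rr a * ζ) (4 * k0 * rr a) l (Sum.inl (c, b, true, p))
          ⊆ {ω : Gm C × V → Om a | (fun v => ω (c, v)) ∈ {ω' : V → Om a |
            (((ow (Qd R (σ c) b) (dl b) p ∩ ZZ (σ c) Zp Zm b) ∩ FL (B c) ω').ncard : ℝ) +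
              1 / 10 * (rr a * ζ) < 19 / 20 * rr a *
              (ow (Qd R (σ c) b) (dl b) p ∩ ZZ (σ c) Zp Zm b).ncard}} := by
        intro ω hω
        have hω' : ((ow (Qd R (σ c) b) (dl b) p ∩ FL (B c) (fun v => ω (c, v)) ∩
          ZZ (σ c) Zp Zm b).ncard : ℝ) < 9 / 5 * rr a * ζ := hω
        have e : ow (Qd R (σ c) b) (dl b) p ∩ FL (B c) (fun v => ω (c, v)) ∩
          ZZ (σ c) Zp Zm b = (ow (Qd R (σ c) b) (dl b) p ∩ ZZ (σ c) Zp Zm b) ∩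
          FL (B c) (fun v => ω (c, v)) := by
          rw [Set.inter_assoc, Set.inter_comm (FL _ _), ← Set.inter_assoc]
        rw [e] at hω'
        show (((ow (Qd R (σ c) b) (dl b) p ∩ ZZ (σ c) Zp Zm b) ∩
          FL (B c) (fun v => ω (c, v))).ncard : ℝ) + 1 / 10 * (rr a * ζ) < _
        have h6 : 19 / 20 * rr a * (2 * ζ) ≤ 19 / 20 * rr a *
              (ow (Qd R (σ c) b) (dl b) p ∩ ZZ (σ c) Zp Zm b).ncard :=
          mul_le_mul_of_nonneg_left hS (by positivity)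
        linarith
      have h3 := hd.trans (mul_le_mul_of_nonneg_right (Real.exp_le_exp.2 (by linarith) :
        Real.exp (-(th * (1 / 10 * (rr a * ζ)))) ≤ Real.exp (-(12 * (2 : ℝ) ^ l)))
        (Nat.cast_nonneg _))
      have h5 := hLift V (Gm C) (Om a) c _ _ h3
      refine le_trans ?_ h5
      exact_mod_cast Set.ncard_le_ncard hsub (Set.toFinite _)
  · have h1 := hBpk V a l C σ B (yy σ b v) ha hC hcyc
    refine h1.trans ?_
    apply mul_le_mul_of_nonneg_right _ (Nat.cast_nonneg _)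
    exact Real.exp_le_exp.2 (by linarith)

end prob

lemma bld_image {V : Type} [Fintype V] [DecidableEq V] {C : Finset ℕ} {σ : ℕ → Equiv.Perm V}
    {R : Set (V × V)} (c : Gm C) (b : Bool) {T : Finset (V × Lab)}
    (h : Bld (gam (Qd R (σ c) b)) T) :
    Bld (GG C σ R) (T.image fun p => ((c, b, p) : Nu V C)) := by
  induction h with
  | one t => rw [Finset.image_singleton]; exact Bld.one _
  | add T t t' _ ht hG ih =>
    rw [Finset.image_insert]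
    exact Bld.add _ (c, b, t) _ ih (Finset.mem_image_of_mem _ ht) ⟨rfl, rfl, hG⟩

theorem smp (hBll : BllStmt) (hAdd : AddStmt) (hSup : SupStmt) (hRho : RhoStmt)
    (hLift : LiftStmt) (hSmn : SmnStmt) (hBpk : BpkStmt) (hNcp : NcpStmt) (hDev : DevStmt)
    (hLoc : LocStmt) (hNbh : NbhStmt) : SmpStmt := by
  intro V _ _ k l a C σ B R Zp Zm k0 ζ hkl ha hal hC hcyc hk0 hk0k hdeg hζ hζ2
  have hk : 1 ≤ k := hk0.trans hk0k
  obtain ⟨n1, n2, n3⟩ := hSmn k l hk hkl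
  have hak := num1 hal
  have hdk0 : ∀ x, (out R x).ncard ≤ k0 ∧ (inn R x).ncard ≤ k0 := fun x =>
    ⟨(hdeg x).2.1, (hdeg x).2.2.2⟩
  have hdk : ∀ x, (out R x).ncard ≤ k ∧ (inn R x).ncard ≤ k := fun x =>
    ⟨(hdeg x).2.1.trans hk0k, (hdeg x).2.2.2.trans hk0k⟩
  have hdl : ∀ x, k0 ≤ 2 * (out R x).ncard ∧ k0 ≤ 2 * (inn R x).ncard := fun x =>
    ⟨(hdeg x).1, (hdeg x).2.2.1⟩
  have hβ : (0 : ℝ) ≤ 2 ^ 24 * 2 ^ l := by positivity
  have : Nonempty (Om a) :=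
    ⟨(⟨0, by positivity⟩, ⟨0, by positivity⟩, 0)⟩
  obtain ⟨ω, h1, h2⟩ := hBll (Gm C × V) (Om a) (Nu V C) (Jx V C) (GG C σ R) (scp C σ B R)
    (evT C σ B R k0 (2 ^ 24 * 2 ^ l)) (sjj C σ B R)
    (evJ C σ B R Zp Zm (9 / 5 * rr a * ζ) (4 * k0 * rr a) l)
    (2 ^ 14 * k ^ 4) (k ^ 3) (2 ^ 13 * k ^ 3) (Real.exp (-(12 * (2 : ℝ) ^ l)))
    (Nat.one_le_iff_ne_zero.2 (by positivity)) (Nat.one_le_pow _ _ hk)
    (Nat.one_le_iff_ne_zero.2 (by positivity)) GG_symm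
    (GG_le C σ R hRho k hk hdk)
    (scp_le C σ B R hRho hNbh k hk hak hdk) (scp_co_le C σ B R hRho hNbh k hk hak hdk)
    (sjj_le C σ B R hNbh k l hk hak ha hal hC hdk) (sjj_co_le C σ B R hNbh k hk hak hdk)
    (fun T ω ω' hω hT => evT_local C σ B R k0 _ hSup hLoc ha hk0 hdl T ω ω' hω hT)
    (fun j ω ω' hω hT => evJ_local C σ B R Zp Zm _ _ l hLoc ha j ω ω' hω hT)
    (Real.exp_pos _).le
    (fun T hT => evT_prob C σ B R k0 _ hNcp hLift ha hcyc hk0 hdk0 hβ _ n2 T hT)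
    (fun j => evJ_prob C σ B R Zp Zm k0 l hDev hLift hBpk ha hC hcyc ζ hdk0 hζ hζ2 j)
    n1
  classical
  refine ⟨fun c v => if h : c ∈ C then ω (⟨c, h⟩, v) else Classical.arbitrary _, ?_, ?_⟩
  · intro c hc
    have e0 : (fun v => if h : c ∈ C then ω (⟨c, h⟩, v) else Classical.arbitrary _) =
        fun v => ω (((⟨c, hc⟩ : Gm C)), v) := by
      funext v
      rw [dif_pos hc]
    show GoodC (B c) (fun v => if h : c ∈ C then ω (⟨c, h⟩, v) else Classical.arbitrary _) _ _ _ _ _ _ _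
    rw [e0]
    have key : ∀ b, ∀ T0 T : Set (V × Lab), T0 ⊆ T →
        NCb (B c) R k0 (2 ^ 24 * 2 ^ l) b (fun v => ω ((⟨c, hc⟩ : Gm C), v)) T0 T := by
      intro b
      refine hAdd V (Qd R (σ c) b) (dl b) k0 (rr a) _ _ _ _ (dl_or b) hk0
        (fun x => le_out_Qd_ncard hdl b x) ?_
      intro T hT T0 hT0
      by_contra hcon
      refine h1 _ (bld_image (C := C) (σ := σ) (R := R) ⟨c, hc⟩ b hT) ⟨⟨c, hc⟩, b, ?_, T0, ?_, ?_⟩
      · intro t ht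
        obtain ⟨p, _, rfl⟩ := Finset.mem_image.1 ht
        exact ⟨rfl, rfl⟩
      · intro p hp
        exact ⟨_, Finset.mem_image_of_mem _ (hT0 hp), rfl⟩
      · have e : pr C (T.image fun p => (((⟨c, hc⟩ : Gm C), b, p) : Nu V C)) = (T : Set (V × Lab)) := by
          ext p
          constructor
          · rintro ⟨t, ht, rfl⟩
            obtain ⟨p', hp', rfl⟩ := Finset.mem_image.1 ht
            exact hp'
          · intro hp
            exact ⟨_, Finset.mem_image_of_mem _ hp, rfl⟩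
        rw [e]
        exact hcon
    refine ⟨key true, key false, ?_, ?_, ?_, ?_⟩
    · intro p
      have := h2 (Sum.inl (⟨c, hc⟩, true, true, p))
      exact not_lt.1 this
    · intro p
      have := h2 (Sum.inl (⟨c, hc⟩, false, true, p))
      exact not_lt.1 this
    · intro p
      have := h2 (Sum.inl (⟨c, hc⟩, false, false, p))
      exact not_lt.1 this
    · intro p
      have := h2 (Sum.inl (⟨c, hc⟩, true, false, p))
      exact not_lt.1 this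
  · intro v
    have key : ∀ b, {c | c ∈ C ∧ yy σ b v c ∈ pk (B c)
        (fun v => if h : c ∈ C then ω (⟨c, h⟩, v) else Classical.arbitrary _)}.ncard ≤
        2 ^ (l + 4) := by
      intro b
      have h3 : ¬ (2 ^ (l + 4) < {c : Gm C | yy σ b v c ∈ pk (B c) (fun v => ω (c, v))}.ncard) :=
        h2 (Sum.inr (b, v))
      refine le_trans ?_ (not_lt.1 h3)
      have h4 : {c | c ∈ C ∧ yy σ b v c ∈ pk (B c)
          (fun v => if h : c ∈ C then ω (⟨c, h⟩, v) else Classical.arbitrary _)} ⊆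
          (fun c : Gm C => (c : ℕ)) '' {c : Gm C | yy σ b v c ∈ pk (B c) (fun v => ω (c, v))} := by
        rintro c ⟨hc, hc2⟩
        refine ⟨⟨c, hc⟩, ?_, rfl⟩
        have e0 : (fun v => if h : c ∈ C then ω (⟨c, h⟩, v) else Classical.arbitrary _) =
            fun v => ω (((⟨c, hc⟩ : Gm C)), v) := by
          funext v
          rw [dif_pos hc]
        rw [e0] at hc2
        exact hc2
      exact (Set.ncard_le_ncard h4 (Set.toFinite _)).trans (Set.ncard_image_le (Set.toFinite _))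
    exact ⟨key true, key false⟩

end Pool.Agent.LPY.H82
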